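import Pool.Agent.Helper23.XT.Ultra

/-!
# XT-Ext1: the ultrapower of an extremal valued field is one-variable extremal
-/

namespace Pool.Agent.Helper3.XT

open Pool.Agent.Helper23.XT

open Filter

variable {K Γ : Type*} [Field K] [LinearOrderedCommGroupWithZero Γ]
variable {ι : Type*} {U : Ultrafilter ι} {v : Valuation K Γ}

private theorem val_le_of_eventually {a b : ι → K}
    (h : ∀ᶠ i in (U : Filter ι), v (a i) ≤ v (b i)) :
    (OU U v).valuation (a : (U : Filter ι).Germ K) ≤
      (OU U v).valuation (b : (U : Filter ι).Germ K) := by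
  by_cases hb : (b : (U : Filter ι).Germ K) = 0
  · have h1 : ∀ᶠ i in (U : Filter ι), b i = 0 := Germ.coe_eq.1 hb
    have h2 : (a : (U : Filter ι).Germ K) = 0 := by
      refine Germ.coe_eq.2 ?_
      filter_upwards [h, h1] with i h3 h4
      rw [h4, map_zero, le_zero_iff, Valuation.zero_iff] at h3
      exact h3
    rw [h2, map_zero]
    exact zero_le
  · have h1 : (a : (U : Filter ι).Germ K) / (b : (U : Filter ι).Germ K) ∈ OU U v := by
      rw [← Germ.coe_div]
      refine coe_mem_OU.2 ?_
      filter_upwards [h] with i h3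
      rw [Pi.div_apply, map_div₀]
      exact div_le_one_of_le₀ h3 zero_le
    have h2 := ((OU U v).valuation_le_one_iff _).2 h1
    calc (OU U v).valuation (a : (U : Filter ι).Germ K) =
          (OU U v).valuation ((a : (U : Filter ι).Germ K) / (b : (U : Filter ι).Germ K)) *
            (OU U v).valuation (b : (U : Filter ι).Germ K) := by
          rw [← map_mul, div_mul_cancel₀ _ hb]
      _ ≤ 1 * (OU U v).valuation (b : (U : Filter ι).Germ K) := mul_le_mul_left h2 _
      _ = _ := one_mul _

/-- the ultrapower is one-variable extremal -/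
theorem ext1_OU (hv : Extremal v) : Ext1 (OU U v) := by
  intro g
  have hrep : ∀ k : ℕ, ∃ c : ι → K, (c : (U : Filter ι).Germ K) = g.coeff k := fun k =>
    Quot.exists_rep (g.coeff k)
  choose c hc using hrep
  let G : ι → Polynomial K := fun i =>
    ∑ k ∈ Finset.range (g.natDegree + 1), Polynomial.monomial k (c k i)
  have hG : ∀ b : ι → K, g.eval (b : (U : Filter ι).Germ K) =
      ((fun i => (G i).eval (b i) : ι → K) : (U : Filter ι).Germ K) := by
    intro b
    have h1 : (fun i => (G i).eval (b i) : ι → K) =
        ∑ k ∈ Finset.range (g.natDegree + 1), c k * b ^ k := by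
      funext i
      rw [Finset.sum_apply]
      simp only [G, Polynomial.eval_finsetSum, Polynomial.eval_monomial, Pi.mul_apply,
        Pi.pow_apply]
    have h2 : (((∑ k ∈ Finset.range (g.natDegree + 1), c k * b ^ k : ι → K)) :
        (U : Filter ι).Germ K) =
        ∑ k ∈ Finset.range (g.natDegree + 1), (c k : (U : Filter ι).Germ K) *
          (b : (U : Filter ι).Germ K) ^ k := by
      have h3 := map_sum (Germ.coeRingHom (R := K) (U : Filter ι))
        (fun k => c k * b ^ k) (Finset.range (g.natDegree + 1))
      simp only [map_mul, map_pow] at h3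
      exact h3
    rw [h1, h2, Polynomial.eval_eq_sum_range]
    exact Finset.sum_congr rfl fun k _ => by rw [hc k]
  choose a ha hmin using fun i => hv.poly (G i)
  refine ⟨(a : (U : Filter ι).Germ K), coe_mem_OU.2 (Eventually.of_forall ha), fun b => ?_⟩
  refine Germ.inductionOn b fun b hb => ?_
  have hb' : ∀ᶠ i in (U : Filter ι), v (b i) ≤ 1 := coe_mem_OU.1 hb
  rw [hG a, hG b]
  refine val_le_of_eventually ?_
  filter_upwards [hb'] with i hi
  exact hmin i (b i) hi

end Pool.Agent.Helper3.XT
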